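import Mathlib
import Pool.Agent.TH576.PAC.Exist
import Pool.Agent.TH576.PAC.Gal
import Pool.Agent.TH576.PAC.Sch

set_option autoImplicit false

namespace Pool.Agent.Results.MP_023059_nt.PACField

open CategoryTheory AlgebraicGeometry

attribute [local instance] MvPolynomial.gradedAlgebra

/-- `f : X ⟶ Spec K` is projective: it factors through a closed immersion into some
projective space over `K`. -/
def IsProjectiveOver (K : Type) [Field K] {X : Scheme.{0}} (f : X ⟶ Spec (.of K)) : Prop :=
  ∃ (n : ℕ) (i : X ⟶ Proj (MvPolynomial.homogeneousSubmodule (Fin (n + 1)) K)),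
    IsClosedImmersion i ∧
      i ≫ Proj.toSpecZero (MvPolynomial.homogeneousSubmodule (Fin (n + 1)) K) ≫
        Spec.map (CommRingCat.ofHom
          (algebraMap K (MvPolynomial.homogeneousSubmodule (Fin (n + 1)) K 0))) = f

/-- A variety over `K`: smooth, projective and geometrically integral. -/
def IsVariety (K : Type) [Field K] {X : Scheme.{0}} (f : X ⟶ Spec (.of K)) : Prop :=
  Smooth f ∧ IsProjectiveOver K f ∧ GeometricallyIntegral f

/-- The structure sheaf of `X` as a sheaf of abelian groups. -/
noncomputable def structureSheafAb (X : Scheme.{0}) : TopCat.Sheaf AddCommGrpCat.{0} X :=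
  (sheafCompose (Opens.grothendieckTopology X)
    (forget₂ CommRingCat RingCat ⋙ forget₂ RingCat AddCommGrpCat)).obj X.sheaf

/-- `X` is acyclic for the structure sheaf: `K` is the ring of global functions (that is,
`H^0(X, O_X)` has dimension one over `K`), and `H^i(X, O_X) = 0` for all `i > 0`. -/
def IsOAcyclic (K : Type) [Field K] {X : Scheme.{0}} (f : X ⟶ Spec (.of K)) : Prop :=
  Function.Bijective ((Scheme.ΓSpecIso (.of K)).inv ≫ f.appTop).hom ∧
    ∀ i : ℕ, 0 < i → Subsingleton (Sheaf.H (structureSheafAb X) i)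

/-- Property (A): every variety over `K` that is acyclic for the structure sheaf has a
`K`-rational point. -/
def PropertyA (K : Type) [Field K] : Prop :=
  ∀ (X : Scheme.{0}) (f : X ⟶ Spec (.of K)), IsVariety K f → IsOAcyclic K f →
    ∃ s : Spec (.of K) ⟶ X, s ≫ f = 𝟙 _

theorem aux {Om : Type} [Field Om] [CharZero Om] (K : IntermediateField ℚ Om)
    (h2 : Pool.Agent.TH576.PAC.PropP K) :
    ¬ ∃ S : Set Gal(SeparableClosure K/K), S.Finite ∧
      (Subgroup.closure S).topologicalClosure = ⊤ := by
  apply Pool.Agent.TH576.PAC.not_topFG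
  intro x d hx
  refine h2 x x.2 d ?_
  have : ((x : K) : Om) ^ 2 = (((d : ℚ) : K) : Om) := by rw [← hx]; rfl
  rw [this]
  simp

theorem aux2 (K Om : Type) [Field K] [Field Om] [Algebra K Om] [CharZero K]
    (h3 : Pool.Agent.TH576.PAC.Solves K Om)
    (h : ¬ ∃ S : Set Gal(SeparableClosure K/K), S.Finite ∧
      (Subgroup.closure S).topologicalClosure = ⊤) :
    ∃ (K : Type) (_ : Field K), CharZero K ∧ PropertyA K ∧
    (∀ (X : Scheme.{0}) (f : X ⟶ Spec (.of K)), LocallyOfFiniteType f → GeometricallyIntegral f →
      ∃ s : Spec (.of K) ⟶ X, s ≫ f = 𝟙 _) ∧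
    ¬ ∃ S : Set Gal(SeparableClosure K/K), S.Finite ∧
      (Subgroup.closure S).topologicalClosure = ⊤ := by
  have key : ∀ (X : Scheme.{0}) (f : X ⟶ Spec (.of K)), LocallyOfFiniteType f →
      GeometricallyIntegral f → ∃ s : Spec (.of K) ⟶ X, s ≫ f = 𝟙 _ := by
    intro X f hf hg
    exact Pool.Agent.TH576.PAC.scheme_point (K := K) (Om := Om) h3 X f
  refine ⟨K, inferInstance, inferInstance, ?_, key, h⟩
  intro X f hX _
  have := hX.1
  exact key X f inferInstance hX.2.2

/-- There is a field `K` of characteristic zero with property (A), over which even every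
geometrically integral scheme locally of finite type has a rational point, and whose absolute
Galois group is not topologically generated by any finite set. -/
theorem result : ∃ (K : Type) (_ : Field K), CharZero K ∧ PropertyA K ∧
    (∀ (X : Scheme.{0}) (f : X ⟶ Spec (.of K)), LocallyOfFiniteType f → GeometricallyIntegral f →
      ∃ s : Spec (.of K) ⟶ X, s ≫ f = 𝟙 _) ∧
    ¬ ∃ S : Set Gal(SeparableClosure K/K), S.Finite ∧
      (Subgroup.closure S).topologicalClosure = ⊤ := by
  obtain ⟨Om, i1, i2, K, h1, h2, h3⟩ := Pool.Agent.TH576.PAC.exists_field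
  exact aux2 K Om h3 (aux K h2)

end Pool.Agent.Results.MP_023059_nt.PACField
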